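import Mathlib
import Pool.Agent.R835.PF

set_option autoImplicit false

namespace Pool.Agent.Results.MP_e10d7f_nt.DegreeIsFour

open Matrix Polynomial

/-- The `4 × 4` matrix realising the Perron number. -/
def M : Matrix (Fin 4) (Fin 4) ℤ := !![0, 1, 0, 0; 10, 0, 1, 0; 1, 0, 0, 1; 2, 0, 14, 0]

lemma M_det (z : ℂ) : (z • (1 : Matrix (Fin 4) (Fin 4) ℂ) - M.map (Int.cast : ℤ → ℂ)).det =
    (z ^ 3 + 3 * z ^ 2 - 15 * z - 46) * (z - 3) := by
  have : z • (1 : Matrix (Fin 4) (Fin 4) ℂ) - M.map (Int.cast : ℤ → ℂ) =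
      !![z, -1, 0, 0; -10, z, -1, 0; -1, 0, z, -1; -2, 0, -14, z] := by
    ext i j
    fin_cases i <;> fin_cases j <;> simp [M]
  rw [this, Matrix.det_succ_row_zero]
  simp [Fin.sum_univ_succ, Matrix.det_fin_three, Fin.succAbove, Matrix.submatrix]
  ring

lemma M_spectrum (z : ℂ) : z ∈ spectrum ℂ (M.map (Int.cast : ℤ → ℂ)) ↔
    (z ^ 3 + 3 * z ^ 2 - 15 * z - 46) * (z - 3) = 0 := by
  rw [spectrum.mem_iff, ← M_det, Matrix.isUnit_iff_isUnit_det, isUnit_iff_ne_zero, not_not,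
    Algebra.algebraMap_eq_smul_one]

lemma M_primitive : M.IsPrimitive := by
  refine ⟨?_, 5, by norm_num, ?_⟩
  · intro i j
    fin_cases i <;> fin_cases j <;> simp [M]
  · have h2 : M ^ 2 = !![10, 0, 1, 0; 1, 10, 0, 1; 2, 1, 14, 0; 14, 2, 0, 14] := by
      rw [pow_two]; decide +kernel
    have h4 : M ^ 4 = !![102, 1, 24, 0; 34, 102, 1, 24; 49, 24, 198, 1; 338, 48, 14, 198] := by
      have : M ^ 4 = M ^ 2 * M ^ 2 := by rw [← pow_add]
      rw [this, h2]; decide +kernel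
    have h5 : M ^ 5 = !![34, 102, 1, 24; 1069, 34, 438, 1; 440, 49, 38, 198;
        890, 338, 2820, 14] := by
      rw [pow_succ, h4]; decide +kernel
    rw [h5]
    intro i j
    fin_cases i <;> fin_cases j <;> simp

/-- The cubic `t³ + 3t² - 15t - 46`. -/
noncomputable def f : ℤ[X] := X ^ 3 + 3 * X ^ 2 - 15 * X - 46

lemma f_natDegree : f.natDegree = 3 := by unfold f; compute_degree!

lemma f_monic : f.Monic := by unfold f; monicity!

lemma f_irreducible : Irreducible f := by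
  rw [f_monic.irreducible_iff_roots_eq_zero_of_degree_le_three (by rw [f_natDegree]; norm_num)
    (by rw [f_natDegree])]
  rw [Multiset.eq_zero_iff_forall_notMem]
  intro a ha
  rw [mem_roots f_monic.ne_zero, IsRoot.def] at ha
  simp only [f, eval_sub, eval_add, eval_pow, eval_X, eval_mul, eval_ofNat] at ha
  have h1 : a ∣ 46 := ⟨a ^ 2 + 3 * a - 15, by linarith⟩
  have h2 : |a| ≤ 46 := by
    have := Int.le_of_dvd (by norm_num) ((abs_dvd _ _).2 h1)
    exact this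
  rw [abs_le] at h2
  obtain ⟨h3, h4⟩ := h2
  interval_cases a <;> omega

/-- Three real roots of the cubic. -/
lemma roots_exist : ∃ l₁ l₂ l₃ : ℝ, 3.8 < l₁ ∧ (-3.3 < l₂ ∧ l₂ < -3.2) ∧ (-3.7 < l₃ ∧ l₃ < -3.3) ∧
    l₁ ^ 3 + 3 * l₁ ^ 2 - 15 * l₁ - 46 = 0 ∧ l₂ ^ 3 + 3 * l₂ ^ 2 - 15 * l₂ - 46 = 0 ∧
    l₃ ^ 3 + 3 * l₃ ^ 2 - 15 * l₃ - 46 = 0 := by
  have hc : Continuous fun x : ℝ => x ^ 3 + 3 * x ^ 2 - 15 * x - 46 := by fun_prop
  have ivt : ∀ a b : ℝ, a ≤ b → a ^ 3 + 3 * a ^ 2 - 15 * a - 46 < 0 →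
      0 < b ^ 3 + 3 * b ^ 2 - 15 * b - 46 →
      ∃ x, a < x ∧ x < b ∧ x ^ 3 + 3 * x ^ 2 - 15 * x - 46 = 0 := by
    intro a b hab ha hb
    obtain ⟨x, hx, hx0⟩ := intermediate_value_Ioo hab hc.continuousOn
      (show (0 : ℝ) ∈ Set.Ioo _ _ from ⟨ha, hb⟩)
    exact ⟨x, hx.1, hx.2, hx0⟩
  have ivt' : ∀ a b : ℝ, a ≤ b → 0 < a ^ 3 + 3 * a ^ 2 - 15 * a - 46 →
      b ^ 3 + 3 * b ^ 2 - 15 * b - 46 < 0 →
      ∃ x, a < x ∧ x < b ∧ x ^ 3 + 3 * x ^ 2 - 15 * x - 46 = 0 := by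
    intro a b hab ha hb
    obtain ⟨x, hx, hx0⟩ := intermediate_value_Ioo' hab hc.continuousOn
      (show (0 : ℝ) ∈ Set.Ioo _ _ from ⟨hb, ha⟩)
    exact ⟨x, hx.1, hx.2, hx0⟩
  obtain ⟨l₁, a1, -, a3⟩ := ivt 3.8 4 (by norm_num) (by norm_num) (by norm_num)
  obtain ⟨l₂, b1, b2, b3⟩ := ivt' (-3.3) (-3.2) (by norm_num) (by norm_num) (by norm_num)
  obtain ⟨l₃, c1, c2, c3⟩ := ivt (-3.7) (-3.3) (by norm_num) (by norm_num) (by norm_num)
  exact ⟨l₁, l₂, l₃, a1, ⟨b1, b2⟩, ⟨c1, c2⟩, a3, b3, c3⟩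

/-- Factorisation of the cubic over its three real roots. -/
lemma factor {l₁ l₂ l₃ : ℝ} (h12 : l₁ ≠ l₂) (h13 : l₁ ≠ l₃) (h23 : l₂ ≠ l₃)
    (h1 : l₁ ^ 3 + 3 * l₁ ^ 2 - 15 * l₁ - 46 = 0) (h2 : l₂ ^ 3 + 3 * l₂ ^ 2 - 15 * l₂ - 46 = 0)
    (h3 : l₃ ^ 3 + 3 * l₃ ^ 2 - 15 * l₃ - 46 = 0) (z : ℂ) :
    z ^ 3 + 3 * z ^ 2 - 15 * z - 46 = (z - l₁) * (z - l₂) * (z - l₃) := by
  have e1 : l₁ ^ 2 + l₁ * l₂ + l₂ ^ 2 + 3 * (l₁ + l₂) - 15 = 0 := by
    have : (l₁ - l₂) * (l₁ ^ 2 + l₁ * l₂ + l₂ ^ 2 + 3 * (l₁ + l₂) - 15) = 0 := by linear_combination h1 - h2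
    exact (mul_eq_zero.1 this).resolve_left (sub_ne_zero.2 h12)
  have e2 : l₁ ^ 2 + l₁ * l₃ + l₃ ^ 2 + 3 * (l₁ + l₃) - 15 = 0 := by
    have : (l₁ - l₃) * (l₁ ^ 2 + l₁ * l₃ + l₃ ^ 2 + 3 * (l₁ + l₃) - 15) = 0 := by linear_combination h1 - h3
    exact (mul_eq_zero.1 this).resolve_left (sub_ne_zero.2 h13)
  have s1 : l₁ + l₂ + l₃ + 3 = 0 := by
    have : (l₂ - l₃) * (l₁ + l₂ + l₃ + 3) = 0 := by linear_combination e1 - e2
    exact (mul_eq_zero.1 this).resolve_left (sub_ne_zero.2 h23)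
  have h3' : l₃ = -3 - l₁ - l₂ := by linarith
  have s2 : l₁ * l₂ + l₁ * l₃ + l₂ * l₃ = -15 := by
    rw [h3']; linear_combination (-1 : ℝ) * e1
  have s3 : l₁ * l₂ * l₃ = 46 := by
    have : l₁ * (l₁ * l₂ + l₁ * l₃ + l₂ * l₃) = -15 * l₁ := by rw [s2]; ring
    have h4 : l₁ * l₂ * l₃ = -15 * l₁ - l₁ ^ 2 * (l₂ + l₃) := by linear_combination this
    rw [h4, show l₂ + l₃ = -3 - l₁ by linarith]
    linear_combination h1
  have c1 : (l₁ : ℂ) + l₂ + l₃ + 3 = 0 := by exact_mod_cast s1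
  have c2 : (l₁ : ℂ) * l₂ + l₁ * l₃ + l₂ * l₃ = -15 := by exact_mod_cast s2
  have c3 : (l₁ : ℂ) * l₂ * l₃ = 46 := by exact_mod_cast s3
  linear_combination z ^ 2 * c1 - z * c2 + c3

/-- The Perron-Frobenius degree of the largest real root of `t³ + 3t² - 15t - 46` is four. -/
theorem result : ∃ l : ℝ, IsGreatest {t : ℝ | t ^ 3 + 3 * t ^ 2 - 15 * t - 46 = 0} l ∧
    IsLeast {n : ℕ | ∃ A : Matrix (Fin n) (Fin n) ℤ, A.IsPrimitive ∧
      spectralRadius ℂ (A.map (Int.cast : ℤ → ℂ)) = ENNReal.ofReal l} 4 := by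
  obtain ⟨l₁, l₂, l₃, hl1, ⟨hl2, hl2'⟩, ⟨hl3, hl3'⟩, r1, r2, r3⟩ := roots_exist
  have fac := factor (l₁ := l₁) (l₂ := l₂) (l₃ := l₃) (by linarith) (by linarith)
    (by linarith) r1 r2 r3
  have hpos : 0 < l₁ := by linarith
  refine ⟨l₁, ⟨r1, ?_⟩, ⟨M, M_primitive, ?_⟩, ?_⟩
  · intro t ht
    have h := fac t
    have h' : (t - l₁) * (t - l₂) * (t - l₃) = 0 := by
      have h0 : ((t : ℂ) - l₁) * (t - l₂) * (t - l₃) = 0 := by
        rw [← h]; exact_mod_cast congrArg (Complex.ofReal) (show t ^ 3 + 3 * t ^ 2 - 15 * t - 46 = 0 from ht)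
      exact_mod_cast h0
    rcases mul_eq_zero.1 h' with h' | h'
    · rcases mul_eq_zero.1 h' with h' | h' <;> linarith
    · linarith
  · apply le_antisymm
    · rw [spectralRadius]
      apply iSup₂_le
      intro z hz
      rw [M_spectrum, fac z] at hz
      have hz' : ‖z‖ ≤ l₁ := by
        rcases mul_eq_zero.1 hz with hz | hz
        · rcases mul_eq_zero.1 hz with hz | hz
          · rcases mul_eq_zero.1 hz with hz | hz
            · rw [sub_eq_zero.1 hz, Complex.norm_real, Real.norm_eq_abs, abs_of_pos hpos]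
            · rw [sub_eq_zero.1 hz, Complex.norm_real, Real.norm_eq_abs, abs_le]
              constructor <;> linarith
          · rw [sub_eq_zero.1 hz, Complex.norm_real, Real.norm_eq_abs, abs_le]
            constructor <;> linarith
        · rw [sub_eq_zero.1 hz]; norm_num; linarith
      rw [← enorm_eq_nnnorm, ← ofReal_norm]
      exact ENNReal.ofReal_le_ofReal hz'
    · have hmem : (l₁ : ℂ) ∈ spectrum ℂ (M.map (Int.cast : ℤ → ℂ)) := by
        rw [M_spectrum, fac]; simp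
      have h1 : ENNReal.ofReal l₁ = (‖(l₁ : ℂ)‖₊ : ENNReal) := by
        rw [← enorm_eq_nnnorm, ← ofReal_norm, Complex.norm_real, Real.norm_eq_abs, abs_of_pos hpos]
      rw [h1]
      exact le_iSup₂ (f := fun k (_ : k ∈ spectrum ℂ (M.map (Int.cast : ℤ → ℂ))) =>
        (‖k‖₊ : ENNReal)) _ hmem
  · rintro n ⟨A, hA, hsp⟩
    by_contra hlt
    push Not at hlt
    -- the real matrix
    set B : Matrix (Fin n) (Fin n) ℝ := A.map (Int.castRingHom ℝ) with hB
    have hBp : B.IsPrimitive := by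
      obtain ⟨k, hk, hk'⟩ := hA.exists_pos_pow
      refine ⟨fun i j => ?_, k, hk, fun i j => ?_⟩
      · simp only [hB, Matrix.map_apply, eq_intCast]
        exact_mod_cast hA.nonneg i j
      · have : B ^ k = (A ^ k).map (Int.castRingHom ℝ) := by
          rw [hB]; exact (Matrix.map_pow A (Int.castRingHom ℝ) k).symm
        rw [this, Matrix.map_apply, eq_intCast]
        exact_mod_cast hk' i j
    have hBC : B.map ((↑) : ℝ → ℂ) = A.map (Int.cast : ℤ → ℂ) := by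
      ext i j; simp [hB]
    obtain ⟨v, hv0, hv⟩ := Pool.Agent.R835.PF.exists_eigenvector B hBp l₁ hpos (by rw [hBC, hsp])
    have hdet : (Matrix.scalar (Fin n) l₁ - B).det = 0 := by
      apply Matrix.exists_mulVec_eq_zero_iff.1
      refine ⟨v, hv0, ?_⟩
      rw [Matrix.sub_mulVec, hv]
      ext i
      simp [Matrix.scalar_apply]
    have hroot : eval₂ (Int.castRingHom ℝ) l₁ A.charpoly = 0 := by
      rw [← eval_map, ← Matrix.charpoly_map, ← hB, Matrix.eval_charpoly]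
      exact hdet
    -- divisibility
    have hfr : aeval l₁ (f.map (Int.castRingHom ℚ)) = 0 := by
      rw [aeval_def, eval₂_map]
      simp only [f, eval₂_sub, eval₂_add, eval₂_mul, eval₂_pow, eval₂_X, eval₂_ofNat]
      exact r1
    have hirr : Irreducible (f.map (Int.castRingHom ℚ)) :=
      (f_monic.irreducible_iff_irreducible_map_fraction_map (K := ℚ)).1 f_irreducible
    have hmin := minpoly.eq_of_irreducible_of_monic hirr hfr (f_monic.map _)
    have hqr : aeval l₁ (A.charpoly.map (Int.castRingHom ℚ)) = 0 := by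
      rw [aeval_def, eval₂_map]
      have hcomp : (algebraMap ℚ ℝ).comp (Int.castRingHom ℚ) = Int.castRingHom ℝ :=
        RingHom.ext_int _ _
      rw [hcomp]
      exact hroot
    have hdvd : f.map (Int.castRingHom ℚ) ∣ A.charpoly.map (Int.castRingHom ℚ) := by
      rw [hmin]; exact minpoly.dvd ℚ l₁ hqr
    have hqm : (A.charpoly.map (Int.castRingHom ℚ)).Monic := (Matrix.charpoly_monic A).map _
    have hdeg : (A.charpoly.map (Int.castRingHom ℚ)).natDegree = n := by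
      rw [(Matrix.charpoly_monic A).natDegree_map, Matrix.charpoly_natDegree_eq_dim,
        Fintype.card_fin]
    have hdegf : (f.map (Int.castRingHom ℚ)).natDegree = 3 := by
      rw [f_monic.natDegree_map, f_natDegree]
    have hle := natDegree_le_of_dvd hdvd hqm.ne_zero
    rw [hdeg, hdegf] at hle
    obtain rfl : n = 3 := by omega
    have heq : f.map (Int.castRingHom ℚ) = A.charpoly.map (Int.castRingHom ℚ) :=
      eq_of_dvd_of_natDegree_le_of_leadingCoeff hdvd (by rw [hdeg, hdegf])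
        (by rw [(f_monic.map _).leadingCoeff, hqm.leadingCoeff])
    have heq' : f = A.charpoly := Polynomial.map_injective _ Int.cast_injective heq
    have htr := Matrix.trace_eq_neg_charpoly_coeff A
    rw [← heq'] at htr
    have hc2 : f.coeff (Fintype.card (Fin 3) - 1) = 3 := by
      simp [f, coeff_X, coeff_ofNat_mul]
    rw [hc2] at htr
    have hnn : 0 ≤ A.trace := Finset.sum_nonneg fun i _ => hA.nonneg i i
    omega

end Pool.Agent.Results.MP_e10d7f_nt.DegreeIsFour
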